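import Mathlib
import Pool.Agent.Helper92.Ru.GoalsW

/-! Proof of `StarB` (part W1 of MP_d1d051_nt). -/

set_option autoImplicit false

open MvPolynomial

namespace Pool.Agent.Helper31.Ru

open Pool.Agent.Helper92.Ru

/-- weights: block degrees -/
def wB (d n : ℕ) : Fin d × Fin (n + 1) → (Fin d → ℕ) := fun p => Pi.single p.1 1

theorem weight_wB {d n : ℕ} (e : (Fin d × Fin (n + 1)) →₀ ℕ) (j : Fin d) :
    Finsupp.weight (wB d n) e j = ∑ i : Fin (n + 1), e (j, i) := by
  classical
  rw [Finsupp.weight_apply, Finsupp.sum_fintype _ _ (by intro i; simp)]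
  rw [Finset.sum_apply, Fintype.sum_prod_type]
  rw [Finset.sum_eq_single j]
  · refine Finset.sum_congr rfl ?_
    intro i _
    simp [wB]
  · intro b _ hb
    refine Finset.sum_eq_zero ?_
    intro i _
    simp [wB, Pi.single_apply, Ne.symm hb]
  · intro h
    exact absurd (Finset.mem_univ j) h

theorem mhom_of_wh {k : Type} [Field k] {d n m : ℕ} {f : BB k d n} {μ : Fin d → ℕ}
    (h : IsWeightedHomogeneous (wB d n) f μ) (hμ : ∀ j, μ j = m) : MHom m f := by
  intro e he j
  have h1 := h (mem_support_iff.1 he)
  rw [← weight_wB e j, h1, hμ j]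

/-- the linear form `l_a` in block `b` -/
noncomputable def lin {k : Type} [Field k] {d n : ℕ} (a : Fin (n + 1) → k) (b : Fin d) :
    BB k d n :=
  ∑ t : Fin (n + 1), C (a t) * X (b, t)

theorem lin_wh {k : Type} [Field k] {d n : ℕ} (a : Fin (n + 1) → k) (b : Fin d) :
    IsWeightedHomogeneous (wB d n) (lin a b) (Pi.single b 1) := by
  unfold lin
  refine IsWeightedHomogeneous.sum _ _ _ ?_
  intro t _
  have h1 := (isWeightedHomogeneous_C (wB d n) (a t)).mul (isWeightedHomogeneous_X k (wB d n) (b, t))
  simpa [wB] using h1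

/-- the space of `Σ_{i∈T} N_i g_i` -/
def GG {k : Type} [Field k] (d : ℕ) {n q : ℕ} (a : Fin q → Fin (n + 1) → k)
    (T : Finset (Fin q)) (m : ℕ) : Submodule k (BB k d n) where
  carrier := {f | ∃ g : Fin q → BB k d n, (∀ i, MHom m (g i)) ∧ f = ∑ i ∈ T, Nl d (a i) * g i}
  add_mem' := by
    rintro f g ⟨g1, h1, rfl⟩ ⟨g2, h2, rfl⟩
    refine ⟨fun i => g1 i + g2 i, fun i => (h1 i).add (h2 i), ?_⟩
    rw [← Finset.sum_add_distrib]
    refine Finset.sum_congr rfl ?_
    intro i _
    ring
  zero_mem' := by
    refine ⟨fun _ => 0, ?_, by simp⟩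
    intro i e he
    simp at he
  smul_mem' := by
    rintro c f ⟨g1, h1, rfl⟩
    refine ⟨fun i => c • g1 i, fun i => (h1 i).smul c, ?_⟩
    rw [Finset.smul_sum]
    refine Finset.sum_congr rfl ?_
    intro i _
    rw [mul_smul_comm]

/-- every variable of block `b` is a combination of `l_i(T_b)`, `i ∈ Z`, when `|Z| ≥ n+1` -/
theorem X_eq_comb {k : Type} [Field k] {d n q : ℕ} (a : Fin q → Fin (n + 1) → k) (ha : GP a)
    (Z : Finset (Fin q)) (hZ : n + 1 ≤ Z.card) (b : Fin d) (t : Fin (n + 1)) :
    ∃ c : Fin q → k, (X (b, t) : BB k d n) = ∑ i ∈ Z, c i • lin (a i) b := by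
  classical
  obtain ⟨Z', hZ'sub, hZ'card⟩ := Finset.exists_subset_card_eq hZ
  have hLI := ha Z' hZ'card.le
  have hcard : Fintype.card Z' = Module.finrank k (Fin (n + 1) → k) := by
    rw [Module.finrank_fin_fun, Fintype.card_coe, hZ'card]
  have hspan : Submodule.span k (Set.range (fun i : Z' => a i)) = ⊤ :=
    hLI.span_eq_top_of_card_eq_finrank' hcard
  have hmem : (Pi.single t 1 : Fin (n + 1) → k) ∈
      Submodule.span k (Set.range (fun i : Z' => a i)) := by
    rw [hspan]; trivial
  rw [Submodule.mem_span_range_iff_exists_fun] at hmem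
  obtain ⟨c, hc⟩ := hmem
  refine ⟨fun i => if h : i ∈ Z' then c ⟨i, h⟩ else 0, ?_⟩
  have h1 : ∑ i ∈ Z, (if h : i ∈ Z' then c ⟨i, h⟩ else 0) • (lin (a i) b : BB k d n)
      = ∑ i ∈ Z', (if h : i ∈ Z' then c ⟨i, h⟩ else 0) • (lin (a i) b : BB k d n) := by
    symm
    refine Finset.sum_subset hZ'sub ?_
    intro i _ hi
    rw [dif_neg hi, zero_smul]
  rw [h1, ← Finset.sum_coe_sort Z']
  have h2 : ∑ i : Z', (if h : (i : Fin q) ∈ Z' then c ⟨i, h⟩ else 0) •
      (lin (a (i : Fin q)) b : BB k d n) = ∑ i : Z', c i • (lin (a (i : Fin q)) b : BB k d n) := by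
    refine Finset.sum_congr rfl ?_
    intro i _
    rw [dif_pos i.2]
  rw [h2]
  unfold lin
  have h3 : ∑ i : Z', c i • ∑ s : Fin (n + 1), (C (a (i : Fin q) s) * X (b, s) : BB k d n)
      = ∑ s : Fin (n + 1), (∑ i : Z', c i * a (i : Fin q) s) • (X (b, s) : BB k d n) := by
    simp_rw [Finset.smul_sum, Finset.sum_smul]
    rw [Finset.sum_comm]
    refine Finset.sum_congr rfl ?_
    intro s _
    refine Finset.sum_congr rfl ?_
    intro i _
    rw [mul_smul, ← smul_eq_C_mul]
  rw [h3]
  have h4 : ∀ s : Fin (n + 1), ∑ i : Z', c i * a (i : Fin q) s = (Pi.single t 1 : Fin (n + 1) → k) s := by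
    intro s
    rw [← hc, Finset.sum_apply]
    rfl
  simp_rw [h4]
  rw [Finset.sum_eq_single t]
  · simp
  · intro s _ hs
    simp [Pi.single_apply, hs]
  · intro h; exact absurd (Finset.mem_univ t) h

theorem star_base {k : Type} [Field k] {d n q : ℕ} (a : Fin q → Fin (n + 1) → k)
    (T : Finset (Fin q)) (hT : d * n + 1 ≤ T.card) (m : ℕ)
    (Z : Fin d → Finset (Fin q)) (hZ : ∀ b, (Z b).card ≤ n)
    (e : (Fin d × Fin (n + 1)) →₀ ℕ) (c : k)
    (he : ∀ b, ∑ t, e (b, t) + (T \ Z b).card = m) :
    monomial e c * ∏ b, ∏ i ∈ T \ Z b, lin (a i) b ∈ GG d a T (m - 1) := by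
  classical
  have h1 : ∃ i ∈ T, ∀ b, i ∉ Z b := by
    by_contra hcon
    push Not at hcon
    have h2 : T ⊆ Finset.univ.biUnion Z := by
      intro i hi
      obtain ⟨b, hb⟩ := hcon i hi
      exact Finset.mem_biUnion.2 ⟨b, Finset.mem_univ b, hb⟩
    have h3 := Finset.card_le_card h2
    have h4 : (Finset.univ.biUnion Z).card ≤ d * n := by
      refine Finset.card_biUnion_le.trans ?_
      calc ∑ b, (Z b).card ≤ ∑ _b : Fin d, n := Finset.sum_le_sum (fun b _ => hZ b)
        _ = d * n := by simp
    omega
  obtain ⟨i0, hi0T, hi0Z⟩ := h1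
  have h5 : ∀ b, i0 ∈ T \ Z b := fun b => Finset.mem_sdiff.2 ⟨hi0T, hi0Z b⟩
  have h6 : monomial e c * ∏ b, ∏ i ∈ T \ Z b, (lin (a i) b : BB k d n)
      = Nl d (a i0) * (monomial e c * ∏ b, ∏ i ∈ (T \ Z b).erase i0, lin (a i) b) := by
    have h7 : ∏ b, ∏ i ∈ T \ Z b, (lin (a i) b : BB k d n)
        = Nl d (a i0) * ∏ b, ∏ i ∈ (T \ Z b).erase i0, lin (a i) b := by
      unfold Nl
      rw [← Finset.prod_mul_distrib]
      refine Finset.prod_congr rfl ?_
      intro b _
      rw [← Finset.mul_prod_erase _ _ (h5 b)]
      rfl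
    rw [h7]; ring
  refine ⟨fun i => if i = i0 then
      (monomial e c * ∏ b, ∏ i ∈ (T \ Z b).erase i0, lin (a i) b) else 0, ?_, ?_⟩
  · intro i
    by_cases hi : i = i0
    · simp only [hi, if_true]
      have hw : IsWeightedHomogeneous (wB d n)
          (monomial e c * ∏ b, ∏ i ∈ (T \ Z b).erase i0, (lin (a i) b : BB k d n))
          (Finsupp.weight (wB d n) e + ∑ b : Fin d, ∑ i ∈ (T \ Z b).erase i0, Pi.single b 1) := by
        refine (isWeightedHomogeneous_monomial (wB d n) e c rfl).mul ?_
        refine IsWeightedHomogeneous.prod _ _ _ ?_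
        intro b _
        refine IsWeightedHomogeneous.prod _ _ _ ?_
        intro i _
        exact lin_wh (a i) b
      refine mhom_of_wh hw ?_
      intro j
      rw [Pi.add_apply, weight_wB, Finset.sum_apply, Finset.sum_eq_single j]
      · rw [Finset.sum_apply]
        simp only [Pi.single_eq_same, Finset.sum_const, smul_eq_mul, mul_one]
        rw [Finset.card_erase_of_mem (h5 j)]
        have h8 := he j
        have h9 : 0 < (T \ Z j).card := Finset.card_pos.2 ⟨i0, h5 j⟩
        omega
      · intro b _ hb
        rw [Finset.sum_apply]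
        refine Finset.sum_eq_zero ?_
        intro i _
        exact Pi.single_eq_of_ne (Ne.symm hb) _
      · intro h; exact absurd (Finset.mem_univ j) h
    · simp only [hi, if_false]
      intro e he
      simp at he
  · rw [h6, Finset.sum_eq_single i0]
    · simp
    · intro i _ hi
      simp [hi]
    · intro h; exact absurd hi0T h

/-- the main induction -/
theorem star_aux {k : Type} [Field k] {d n q : ℕ} (a : Fin q → Fin (n + 1) → k) (ha : GP a)
    (T : Finset (Fin q)) (hT : d * n + 1 ≤ T.card) (m : ℕ) (hm : q ≤ m) :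
    ∀ (N : ℕ) (Z : Fin d → Finset (Fin q)), (∀ b, Z b ⊆ T) → ∑ b, (Z b).card ≤ N →
      ∀ (e : (Fin d × Fin (n + 1)) →₀ ℕ) (c : k),
        (∀ b, ∑ t, e (b, t) + (T \ Z b).card = m) →
        monomial e c * ∏ b, ∏ i ∈ T \ Z b, lin (a i) b ∈ GG d a T (m - 1) := by
  classical
  have hTm : T.card ≤ m := by
    have h1 := Finset.card_le_univ T
    rw [Fintype.card_fin] at h1
    exact h1.trans hm
  intro N
  induction N with
  | zero =>
    intro Z hZT hZN e c he
    refine star_base a T hT m Z ?_ e c he
    intro b
    have h1 : (Z b).card ≤ ∑ b, (Z b).card :=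
      Finset.single_le_sum (f := fun b => (Z b).card) (fun _ _ => Nat.zero_le _)
        (Finset.mem_univ b)
    omega
  | succ N ih =>
    intro Z hZT hZN e c he
    by_cases hZ : ∀ b, (Z b).card ≤ n
    · exact star_base a T hT m Z hZ e c he
    · push Not at hZ
      obtain ⟨b0, hb0⟩ := hZ
      have h1 : 0 < ∑ t, e (b0, t) := by
        have h2 := he b0
        rw [Finset.card_sdiff_of_subset (hZT b0)] at h2
        have h3 := Finset.card_le_card (hZT b0)
        omega
      obtain ⟨t0, -, ht0⟩ := Finset.exists_ne_zero_of_sum_ne_zero h1.ne'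
      obtain ⟨cc, hcc⟩ := X_eq_comb (d := d) a ha (Z b0) hb0 b0 t0
      set e' := e - Finsupp.single (b0, t0) 1 with he'
      have hee : e = Finsupp.single (b0, t0) 1 + e' := by
        ext p
        simp only [he', Finsupp.add_apply, Finsupp.tsub_apply]
        by_cases hp : p = (b0, t0)
        · subst hp
          rw [Finsupp.single_eq_same]
          omega
        · rw [Finsupp.single_eq_of_ne hp]
          simp
      have hmon : (monomial e c : BB k d n) = X (b0, t0) * monomial e' c := by
        rw [hee, X, monomial_mul, one_mul]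
      have hkey : monomial e c * ∏ b, ∏ i ∈ T \ Z b, (lin (a i) b : BB k d n)
          = ∑ i ∈ Z b0, cc i • (monomial e' c *
            ∏ b, ∏ i' ∈ T \ (Function.update Z b0 ((Z b0).erase i) b), lin (a i') b) := by
        rw [hmon, hcc, Finset.sum_mul, Finset.sum_mul]
        refine Finset.sum_congr rfl ?_
        intro i hi
        have h4 : ∏ b, ∏ i' ∈ T \ (Function.update Z b0 ((Z b0).erase i) b),
            (lin (a i') b : BB k d n) = lin (a i) b0 * ∏ b, ∏ i' ∈ T \ Z b, lin (a i') b := by
          rw [← Finset.mul_prod_erase _ _ (Finset.mem_univ b0),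
            ← Finset.mul_prod_erase (Finset.univ) (fun b => ∏ i' ∈ T \ Z b,
              (lin (a i') b : BB k d n)) (Finset.mem_univ b0)]
          rw [Function.update_self]
          have h5 : ∏ b ∈ Finset.univ.erase b0, ∏ i' ∈ T \ (Function.update Z b0 ((Z b0).erase i) b),
              (lin (a i') b : BB k d n) = ∏ b ∈ Finset.univ.erase b0, ∏ i' ∈ T \ Z b,
              (lin (a i') b : BB k d n) := by
            refine Finset.prod_congr rfl ?_
            intro b hb
            rw [Function.update_of_ne (Finset.ne_of_mem_erase hb)]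
          rw [h5]
          have h6 : T \ (Z b0).erase i = insert i (T \ Z b0) := by
            ext x
            simp only [Finset.mem_sdiff, Finset.mem_erase, Finset.mem_insert, not_and, ne_eq]
            constructor
            · rintro ⟨hx1, hx2⟩
              by_cases hx : x = i
              · left; exact hx
              · right; exact ⟨hx1, fun h => hx2 hx h⟩
            · rintro (rfl | ⟨hx1, hx2⟩)
              · exact ⟨hZT b0 hi, fun h => absurd rfl h⟩
              · exact ⟨hx1, fun _ => hx2⟩
          have h7 : i ∉ T \ Z b0 := fun h => (Finset.mem_sdiff.1 h).2 hi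
          rw [h6, Finset.prod_insert h7]
          ring
        rw [h4]
        rw [smul_mul_assoc, smul_mul_assoc]
        congr 1
        ring
      rw [hkey]
      refine Submodule.sum_mem _ ?_
      intro i hi
      refine Submodule.smul_mem _ _ ?_
      refine ih (Function.update Z b0 ((Z b0).erase i)) ?_ ?_ e' c ?_
      · intro b
        by_cases hb : b = b0
        · subst hb
          rw [Function.update_self]
          exact (Finset.erase_subset _ _).trans (hZT b)
        · rw [Function.update_of_ne hb]
          exact hZT b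
      · have h8 : ∑ b, (Function.update Z b0 ((Z b0).erase i) b).card + 1 = ∑ b, (Z b).card := by
          rw [← Finset.add_sum_erase _ _ (Finset.mem_univ b0),
            ← Finset.add_sum_erase (Finset.univ) (fun b => (Z b).card) (Finset.mem_univ b0)]
          rw [Function.update_self]
          have h9 : ∑ b ∈ Finset.univ.erase b0, (Function.update Z b0 ((Z b0).erase i) b).card
              = ∑ b ∈ Finset.univ.erase b0, (Z b).card := by
            refine Finset.sum_congr rfl ?_
            intro b hb
            rw [Function.update_of_ne (Finset.ne_of_mem_erase hb)]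
          rw [h9, Finset.card_erase_of_mem hi]
          have h10 : 0 < (Z b0).card := Finset.card_pos.2 ⟨i, hi⟩
          omega
        omega
      · intro b
        by_cases hb : b = b0
        · subst hb
          rw [Function.update_self]
          have h11 : ∑ t, e (b, t) = ∑ t, e' (b, t) + 1 := by
            rw [← Finset.add_sum_erase _ _ (Finset.mem_univ t0),
              ← Finset.add_sum_erase (Finset.univ) (fun t => e' (b, t)) (Finset.mem_univ t0)]
            have h12 : ∑ t ∈ Finset.univ.erase t0, e (b, t) = ∑ t ∈ Finset.univ.erase t0, e' (b, t) := by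
              refine Finset.sum_congr rfl ?_
              intro t ht
              rw [hee, Finsupp.add_apply, Finsupp.single_eq_of_ne, zero_add]
              intro h
              exact (Finset.ne_of_mem_erase ht) (Prod.ext_iff.1 h).2
            rw [h12]
            have h13 : e (b, t0) = e' (b, t0) + 1 := by
              conv_lhs => rw [hee]
              rw [Finsupp.add_apply, Finsupp.single_eq_same]
              omega
            rw [h13]
            ring
          have h14 := he b
          have h15 : T \ (Z b).erase i = insert i (T \ Z b) := by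
            ext x
            simp only [Finset.mem_sdiff, Finset.mem_erase, Finset.mem_insert, not_and, ne_eq]
            constructor
            · rintro ⟨hx1, hx2⟩
              by_cases hx : x = i
              · left; exact hx
              · right; exact ⟨hx1, fun h => hx2 hx h⟩
            · rintro (rfl | ⟨hx1, hx2⟩)
              · exact ⟨hZT b hi, fun h => absurd rfl h⟩
              · exact ⟨hx1, fun _ => hx2⟩
          have h16 : i ∉ T \ Z b := fun h => (Finset.mem_sdiff.1 h).2 hi
          rw [h15, Finset.card_insert_of_notMem h16]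
          omega
        · rw [Function.update_of_ne hb, ← he b]
          congr 1
          refine Finset.sum_congr rfl ?_
          intro t _
          conv_rhs => rw [hee]
          rw [Finsupp.add_apply, Finsupp.single_eq_of_ne, zero_add]
          intro h
          exact hb (Prod.ext_iff.1 h).1

/-- **W1**: star configuration. -/
theorem starB : StarB := by
  classical
  intro k _ d n q a hd ha T hT m hm f hf
  have h1 : f ∈ GG d a T (m - 1) := by
    rw [f.as_sum]
    refine Submodule.sum_mem _ ?_
    intro e he
    have h2 := star_aux a ha T hT m hm (∑ _b : Fin d, T.card) (fun _ => T)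
      (fun _ => Finset.Subset.refl _) le_rfl e (coeff e f) ?_
    · simpa using h2
    · intro b
      simpa using hf e he b
  exact h1

end Pool.Agent.Helper31.Ru
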